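import Pool.Agent.Helper3.TP.St

/-! Project TP (MP_86d903), modules CLS, FAR2, FAR3 (helper86). -/

set_option autoImplicit false

open Finset
open MP86d903 (Valid Lit inside mem_inside pt flip Clause Ineq clauseIneq vsF ngF)
open Helper80.SR (Exp Closed Cl Sm)
open Helper3.TL Helper3.TP

namespace Helper86.TP

private theorem card_sdiff_le {V : Type} [DecidableEq V] (N A W : Finset V) :
    (N \ A).card ≤ (N \ (A ∪ W)).card + W.card := by
  have hsub : N \ A ⊆ (N \ (A ∪ W)) ∪ W := by
    intro v hv
    obtain ⟨hv1, hv2⟩ := mem_sdiff.mp hv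
    by_cases hvW : v ∈ W
    · exact mem_union_right _ hvW
    · refine mem_union_left _ (mem_sdiff.mpr ⟨hv1, fun h => ?_⟩)
      rcases mem_union.mp h with h | h
      · exact hv2 h
      · exact hvW h
  exact (card_le_card hsub).trans (card_union_le _ _)

/-- Module CLS. -/
theorem hCls : PCls := by
  intro ι V _ _ _ _ vs q A W hA hAW hW S hS hq hc
  have h1 := hAW S hS hq hc
  have h2 := hA S hS hq (fun c hcS h => hc c hcS (h.trans subset_union_left))
  have h3 := card_sdiff_le (S.biUnion vs) A W
  omega

/-- Module FAR2. -/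
theorem hFar2 (hG : PFarG) (hC : PCls) : PFar2 := by
  intro ι V _ _ _ _ vs q D κ M A R U hE hAR hR hM hUA hU hAU hfar
  refine hG ι V vs q (2 * (M + 3)) A R U hE.three hAR hR hUA
    (hC ι V vs q A U hE.closed hAU hU) ?_ hfar
  intro S hq hc hle
  rcases S.eq_empty_or_nonempty with he | hS
  · rw [he, card_empty]
    exact Nat.zero_le _
  · have h1 := hE.closed S hS hq
      (fun c hcS h => hc c hcS (h.trans (hAR.trans subset_union_left)))
    have h2 := card_sdiff_le (S.biUnion vs) A (R \ A)
    rw [union_sdiff_of_subset hAR] at h2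
    have h3 := card_sdiff_le (S.biUnion vs) R U
    omega

/-- Module FAR3. -/
theorem hFar3 (hG : PFarG) (hC : PCls) : PFar3 := by
  intro ι V _ _ _ _ vs q D κ A R U hE hAR hR hUA hU hAU hfar
  have hrad : rad 9 + 1 = 93 := by
    have h1 : Nat.log 2 9 = 3 := by
      rw [Nat.log_eq_iff (Or.inl (by norm_num))]
      norm_num
    unfold rad
    rw [h1]
  have hRc : Closed vs q R := by
    intro S hS hq hc
    have h1 := hR S hS hq hc
    have h2 := card_pos.mpr hS
    omega
  refine hG ι V vs q 9 A R U hE.three hAR hRc hUA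
    (hC ι V vs q A U hE.closed hAU hU) ?_ (by rw [hrad]; exact hfar)
  intro S hq hc hle
  rcases S.eq_empty_or_nonempty with he | hS
  · rw [he, card_empty]
    exact Nat.zero_le _
  · have h1 := hR S hS hq (fun c hcS h => hc c hcS (h.trans subset_union_left))
    have h3 := card_sdiff_le (S.biUnion vs) R U
    omega

end Helper86.TP
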